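import Pool.Agent.W221.NS.Stm2
import Pool.Agent.W605.MD.BASE
import Pool.Agent.W162.MD.CUT

/-!
The first step for the decomposition: smallness of the energy.
-/

set_option autoImplicit false
set_option linter.all false

open MeasureTheory Set Metric
open scoped ContDiff

namespace W356.ME

open H459R3.NS W221.NS

lemma lap_k2_zero' {z : V} (hz : z ∉ ball (0 : V) 1) : lap W605.MD.k2 z = 0 := by
  have hcl : IsClosed {y : V | lap W605.MD.k2 y = 0} :=
    isClosed_eq (W605.MD.lap_cont W605.MD.k2_smooth) continuous_const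
  have hsub : (closedBall (0 : V) 1)ᶜ ⊆ {y : V | lap W605.MD.k2 y = 0} :=
    fun y hy => W605.MD.lap_k2_zero hy
  have h1 : closure ((closedBall (0 : V) 1)ᶜ) ⊆ {y : V | lap W605.MD.k2 y = 0} :=
    closure_minimal hsub hcl
  have h2 : closure ((closedBall (0 : V) 1)ᶜ) = (ball (0 : V) 1)ᶜ := by
    rw [closure_compl, interior_closedBall _ one_ne_zero]
  rw [h2] at h1
  exact h1 hz

lemma term2' {v : V → V} (hv : ContDiff ℝ ∞ v) {N L : ℝ} (hL : ∀ z, |lap W605.MD.k2 z| ≤ L)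
    {t : ℝ} (hN : |deriv (fun s => W605.MD.chi s ^ 2) t| ≤ N) :
    ∫ z, nsq v z * (deriv (fun s => W605.MD.PH s z) t + lap (W605.MD.PH t) z) ≤
      (N + L) * A2 0 1 v := by
  have e1 : ∀ z, deriv (fun s => W605.MD.PH s z) t + lap (W605.MD.PH t) z =
      W605.MD.k2 z * deriv (fun s => W605.MD.chi s ^ 2) t + lap W605.MD.k2 z * W605.MD.chi t ^ 2 := by
    intro z
    have e2 : deriv (fun s => W605.MD.PH s z) t = W605.MD.k2 z * deriv (fun s => W605.MD.chi s ^ 2) t := by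
      unfold W605.MD.PH
      rw [deriv_const_mul_field]
    have e3 : lap (W605.MD.PH t) z = lap W605.MD.k2 z * W605.MD.chi t ^ 2 :=
      W605.MD.lap_mul_const W605.MD.k2_smooth _ z
    rw [e2, e3]
  simp_rw [e1]
  have hF : Continuous (fun z => W605.MD.k2 z * deriv (fun s => W605.MD.chi s ^ 2) t
      + lap W605.MD.k2 z * W605.MD.chi t ^ 2) :=
    (W605.MD.k2_cont.mul continuous_const).add
      ((W605.MD.lap_cont W605.MD.k2_smooth).mul continuous_const)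
  have hz0 : ∀ z ∉ ball (0 : V) 1,
      nsq v z * (W605.MD.k2 z * deriv (fun s => W605.MD.chi s ^ 2) t
        + lap W605.MD.k2 z * W605.MD.chi t ^ 2) = 0 := by
    intro z hz
    rw [W605.MD.k2_zero hz, lap_k2_zero' hz]; ring
  rw [← setIntegral_eq_integral_of_forall_compl_eq_zero hz0]
  unfold A2
  rw [← integral_const_mul]
  apply setIntegral_mono_on (W605.MD.intOn_ball ((W605.MD.nsq_cont hv).mul hF) 1)
    (W605.MD.intOn_ball (continuous_const.mul (W605.MD.nsq_cont hv)) 1) measurableSet_ball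
  intro z _
  show nsq v z * (W605.MD.k2 z * deriv (fun s => W605.MD.chi s ^ 2) t
    + lap W605.MD.k2 z * W605.MD.chi t ^ 2) ≤ (N + L) * nsq v z
  rw [mul_comm (N + L)]
  apply mul_le_mul_of_nonneg_left _ (W605.MD.nsq_nonneg v z)
  have h1 : W605.MD.k2 z * deriv (fun s => W605.MD.chi s ^ 2) t ≤ N := by
    calc W605.MD.k2 z * deriv (fun s => W605.MD.chi s ^ 2) t ≤ W605.MD.k2 z * N :=
          mul_le_mul_of_nonneg_left ((le_abs_self _).trans hN) (W605.MD.k2_nonneg z)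
      _ ≤ 1 * N := mul_le_mul_of_nonneg_right (W605.MD.k2_le_one z) ((abs_nonneg _).trans hN)
      _ = N := one_mul N
  have h2 : lap W605.MD.k2 z * W605.MD.chi t ^ 2 ≤ L := by
    have h3 : W605.MD.chi t ^ 2 ≤ 1 := by
      nlinarith [W605.MD.chi_nonneg t, W605.MD.chi_le_one t]
    calc lap W605.MD.k2 z * W605.MD.chi t ^ 2 ≤ L * W605.MD.chi t ^ 2 :=
          mul_le_mul_of_nonneg_right ((le_abs_self _).trans (hL z)) (sq_nonneg _)
      _ ≤ L * 1 := mul_le_mul_of_nonneg_left h3 ((abs_nonneg _).trans (hL z))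
      _ = L := mul_one L
  linarith

lemma G_nonneg2 {v W N : V → V} {P : V → ℝ} {g : ℝ} (h : Slice2 v W N P g) : 0 ≤ g :=
  le_trans (setIntegral_nonneg measurableSet_ball fun z _ => W605.MD.gsq_nonneg v z) h.grad

lemma PH_le_one (t : ℝ) (z : V) : W605.MD.PH t z ≤ 1 := by
  unfold W605.MD.PH
  have h1 := W605.MD.k2_nonneg z
  have h2 := W605.MD.k2_le_one z
  have h3 : W605.MD.chi t ^ 2 ≤ 1 := by
    nlinarith [W605.MD.chi_nonneg t, W605.MD.chi_le_one t]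
  nlinarith [sq_nonneg (W605.MD.chi t)]

lemma PH_zero (t : ℝ) {z : V} (hz : z ∉ ball (0 : V) 1) : W605.MD.PH t z = 0 := by
  unfold W605.MD.PH
  rw [W605.MD.k2_zero hz, zero_mul]

lemma PH_cont (t : ℝ) : Continuous (W605.MD.PH t) := by
  unfold W605.MD.PH
  exact W605.MD.k2_cont.mul continuous_const

lemma EE_ball (W : ℝ → V → V) (t : ℝ) :
    W605.MD.EE W t = ∫ z in ball (0 : V) 1, nsq (W t) z * W605.MD.PH t z := by
  unfold W605.MD.EE
  refine (setIntegral_eq_integral_of_forall_compl_eq_zero fun z hz => ?_).symm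
  rw [PH_zero t hz, mul_zero]

lemma EE_le (W : ℝ → V → V) (t : ℝ) (hW : ContDiff ℝ ∞ (W t)) :
    W605.MD.EE W t ≤ A2 0 1 (W t) := by
  rw [EE_ball]
  unfold A2
  apply setIntegral_mono_on (W605.MD.intOn_ball ((W605.MD.nsq_cont hW).mul (PH_cont t)) 1)
    (W605.MD.intOn_ball (W605.MD.nsq_cont hW) 1) measurableSet_ball
  intro z _
  exact mul_le_of_le_one_right (W605.MD.nsq_nonneg _ z) (PH_le_one t z)

lemma lin_term (W : ℝ → V → V) (t : ℝ) (hW : ContDiff ℝ ∞ (W t)) :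
    ∫ z, √(nsq (W t) z) * W605.MD.PH t z ≤ 3 * √(W605.MD.EE W t) := by
  have e1 : ∫ z, √(nsq (W t) z) * W605.MD.PH t z
      = ∫ z in ball (0 : V) 1, √(nsq (W t) z) * W605.MD.PH t z := by
    refine (setIntegral_eq_integral_of_forall_compl_eq_zero fun z hz => ?_).symm
    rw [PH_zero t hz, mul_zero]
  have hs : Continuous fun z : V => √(nsq (W t) z) * √(W605.MD.PH t z) :=
    (W605.MD.nsq_cont hW).sqrt.mul (PH_cont t).sqrt
  have h8 : √(∫ _x in ball (0 : V) 1, (1 : ℝ) ^ 2) ≤ 3 := by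
    rw [Real.sqrt_le_left (by norm_num)]
    simp only [one_pow, setIntegral_const, smul_eq_mul, mul_one]
    rw [W162.MD.vol_ball]
    norm_num
  have hcs := W162.MD.cs_ball (f := fun _ => (1 : ℝ)) continuous_const hs 0 1
  have e2 : ∫ z in ball (0 : V) 1, (√(nsq (W t) z) * √(W605.MD.PH t z)) ^ 2 = W605.MD.EE W t := by
    rw [EE_ball]
    refine integral_congr_ae (Filter.Eventually.of_forall fun z => ?_)
    simp only [mul_pow, Real.sq_sqrt (W605.MD.nsq_nonneg (W t) z),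
      Real.sq_sqrt (W605.MD.PH_nonneg t z)]
  rw [e2] at hcs
  rw [e1]
  calc ∫ z in ball (0 : V) 1, √(nsq (W t) z) * W605.MD.PH t z
      ≤ ∫ z in ball (0 : V) 1, 1 * (√(nsq (W t) z) * √(W605.MD.PH t z)) := by
        apply integral_mono
        · exact W605.MD.intOn_ball ((W605.MD.nsq_cont hW).sqrt.mul (PH_cont t)) 1
        · exact W605.MD.intOn_ball (continuous_const.mul hs) 1
        · intro z
          show √(nsq (W t) z) * W605.MD.PH t z ≤ 1 * (√(nsq (W t) z) * √(W605.MD.PH t z))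
          rw [one_mul]
          refine mul_le_mul_of_nonneg_left ?_ (Real.sqrt_nonneg _)
          apply Real.le_sqrt_of_sq_le
          nlinarith [W605.MD.PH_nonneg t z, PH_le_one t z]
    _ ≤ √(∫ _x in ball (0 : V) 1, (1 : ℝ) ^ 2) * √(W605.MD.EE W t) := (le_abs_self _).trans hcs
    _ ≤ 3 * √(W605.MD.EE W t) := mul_le_mul_of_nonneg_right h8 (Real.sqrt_nonneg _)

lemma deriv_bound2 (h1 : S_EN2) (h2 : S_CUT2) (h3 : S_WB) : ∃ C₁ : ℝ, 0 < C₁ ∧
    ∀ (v W : ℝ → V → V) (G : ℝ → ℝ) (ε : ℝ), Hyp2 v W G ε → ∀ t ∈ Ioo (-1 : ℝ) 0,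
      ∃ D : ℝ, HasDerivAt (W605.MD.EE W) D t ∧ D ≤ C₁ * G t * (1 + √(W605.MD.EE W t)) := by
  obtain ⟨Ce, hCe, hen⟩ := h1
  obtain ⟨Cc, hCc, hcut⟩ := h2
  obtain ⟨Cw, hCw, hwb⟩ := h3
  obtain ⟨L, hL0, hL⟩ := W605.MD.lap_k2_bound
  obtain ⟨N, hN0, hN⟩ := W605.MD.dchi_bound
  refine ⟨(N + L) * Cw + 2 * Cc + Ce * (4 * √Cw + 3), by positivity, ?_⟩
  intro v W G ε hyp t ht
  obtain ⟨P, hP⟩ := hyp.2.2.1 t ht
  have hG := G_nonneg2 hP
  obtain ⟨D, hD, hle⟩ := hen v W G ε hyp (-1) 0 le_rfl le_rfl W605.MD.PH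
    W605.MD.PH_smooth.contDiffOn (fun s _ z hz => PH_zero s hz) t ht
    (fun z => W605.MD.PH_nonneg t z) P hP
  refine ⟨D, hD, ?_⟩
  have hW := hP.sW
  obtain ⟨hA, -, -, -⟩ := hwb _ _ _ _ _ hP
  have hEA := (EE_le W t hW).trans hA
  have hE0 := W605.MD.EE_nonneg W t
  have t1 : 0 ≤ ∫ z, gsq (W t) z * W605.MD.PH t z :=
    integral_nonneg fun z => mul_nonneg (W605.MD.gsq_nonneg _ z) (W605.MD.PH_nonneg t z)
  have t2 := term2' hW hL (hN t ht)
  have t2' : (N + L) * A2 0 1 (W t) ≤ (N + L) * Cw * G t := by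
    rw [mul_assoc]
    exact mul_le_mul_of_nonneg_left hA (by positivity)
  have c1 := W605.MD.chi_nonneg t
  have c2 := W605.MD.chi_le_one t
  have e3 : √(∫ z, nsq (W t) z * kap z ^ 2) * W605.MD.chi t = √(W605.MD.EE W t) := by
    rw [W605.MD.EE_eq, Real.sqrt_mul' _ (sq_nonneg _), Real.sqrt_sq c1]
  have e4 : 0 ≤ √(∫ z, nsq (W t) z * kap z ^ 2) := Real.sqrt_nonneg _
  have e5 : 0 ≤ √(W605.MD.EE W t) := Real.sqrt_nonneg _
  have e6 : √(∫ z, nsq (W t) z * kap z ^ 2) * W605.MD.chi t ^ 2 ≤ √(W605.MD.EE W t) := by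
    have : √(∫ z, nsq (W t) z * kap z ^ 2) * W605.MD.chi t ^ 2 =
      √(W605.MD.EE W t) * W605.MD.chi t := by rw [← e3]; ring
    rw [this]
    nlinarith
  have t3 : (∫ z, nsq (W t) z * adv (v t) (W605.MD.PH t) z)
      + 2 * (∫ z, P z * adv (W t) (W605.MD.PH t) z) ≤ 2 * (Cc * G t * √(W605.MD.EE W t)) := by
    have a1 : ∀ (f : V → ℝ) (u : V → V), ∫ z, f z * adv u (W605.MD.PH t) z =
        (∫ z, f z * adv u (fun y => kap y ^ 2) z) * W605.MD.chi t ^ 2 := by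
      intro f u
      rw [← integral_mul_const]
      apply integral_congr_ae
      filter_upwards with z
      have : adv u (W605.MD.PH t) z = adv u (fun y => kap y ^ 2) z * W605.MD.chi t ^ 2 :=
        W605.MD.adv_mul_const u W605.MD.k2_smooth _ z
      rw [this]; ring
    rw [a1, a1]
    have a2 := hcut (v t) (W t) _ P (G t) hP
    obtain ⟨X, hX⟩ : ∃ X, X = ∫ z, nsq (W t) z * adv (v t) (fun y => kap y ^ 2) z := ⟨_, rfl⟩
    obtain ⟨Y, hY⟩ : ∃ Y, Y = ∫ z, P z * adv (W t) (fun y => kap y ^ 2) z := ⟨_, rfl⟩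
    rw [← hX, ← hY] at a2 ⊢
    have a3 := le_abs_self X
    have a4 := le_abs_self Y
    have a5 := abs_nonneg X
    have a6 := sq_nonneg (W605.MD.chi t)
    have a7 : X + 2 * Y ≤ 2 * (Cc * G t * √(∫ z, nsq (W t) z * kap z ^ 2)) := by linarith
    calc X * W605.MD.chi t ^ 2 + 2 * (Y * W605.MD.chi t ^ 2) = (X + 2 * Y) * W605.MD.chi t ^ 2 := by ring
      _ ≤ (2 * (Cc * G t * √(∫ z, nsq (W t) z * kap z ^ 2))) * W605.MD.chi t ^ 2 :=
          mul_le_mul_of_nonneg_right a7 a6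
      _ = 2 * (Cc * G t) * (√(∫ z, nsq (W t) z * kap z ^ 2) * W605.MD.chi t ^ 2) := by ring
      _ ≤ 2 * (Cc * G t) * √(W605.MD.EE W t) := mul_le_mul_of_nonneg_left e6 (by positivity)
      _ = _ := by ring
  have hsG : 0 ≤ √(G t) := Real.sqrt_nonneg _
  have hsC : 0 ≤ √Cw := Real.sqrt_nonneg _
  have hsE : √(W605.MD.EE W t) ≤ √Cw * √(G t) := by
    rw [← Real.sqrt_mul hCw.le]
    exact Real.sqrt_le_sqrt hEA
  have hGE : √(G t) * √(W605.MD.EE W t) ≤ √Cw * G t := by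
    calc √(G t) * √(W605.MD.EE W t) ≤ √(G t) * (√Cw * √(G t)) := mul_le_mul_of_nonneg_left hsE hsG
      _ = √Cw * (√(G t) * √(G t)) := by ring
      _ = √Cw * G t := by rw [Real.mul_self_sqrt hG]
  have t4 : √(G t) * (∫ z, nsq (W t) z * W605.MD.PH t z) ≤ √Cw * G t * √(W605.MD.EE W t) := by
    have a1 : (∫ z, nsq (W t) z * W605.MD.PH t z) = √(W605.MD.EE W t) * √(W605.MD.EE W t) :=
      (Real.mul_self_sqrt hE0).symm
    rw [a1, ← mul_assoc]
    exact mul_le_mul_of_nonneg_right hGE e5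
  have t5 : (√(G t) + G t) * (∫ z, √(nsq (W t) z) * W605.MD.PH t z) ≤
      3 * (√Cw * G t) + 3 * (G t * √(W605.MD.EE W t)) := by
    calc (√(G t) + G t) * (∫ z, √(nsq (W t) z) * W605.MD.PH t z)
        ≤ (√(G t) + G t) * (3 * √(W605.MD.EE W t)) :=
          mul_le_mul_of_nonneg_left (lin_term W t hW) (by positivity)
      _ = 3 * (√(G t) * √(W605.MD.EE W t)) + 3 * (G t * √(W605.MD.EE W t)) := by ring
      _ ≤ _ := by linarith
  have t6 := mul_le_mul_of_nonneg_left (add_le_add t4 t5) hCe.le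
  have hGE0 : 0 ≤ G t * √(W605.MD.EE W t) := mul_nonneg hG e5
  refine hle.trans ?_
  have hfin : (N + L) * Cw * G t + 2 * (Cc * G t * √(W605.MD.EE W t))
      + Ce * (√Cw * G t * √(W605.MD.EE W t) + (3 * (√Cw * G t) + 3 * (G t * √(W605.MD.EE W t))))
      ≤ ((N + L) * Cw + 2 * Cc + Ce * (4 * √Cw + 3)) * G t * (1 + √(W605.MD.EE W t)) := by
    have b1 : 0 ≤ (N + L) * Cw * (G t * √(W605.MD.EE W t)) := by positivity
    have b2 : 0 ≤ Cc * G t := by positivity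
    have b3 : 0 ≤ Ce * √Cw * G t := by positivity
    have b4 : 0 ≤ Ce * √Cw * (G t * √(W605.MD.EE W t)) := by positivity
    have b5 : 0 ≤ Ce * G t := by positivity
    nlinarith
  linarith

theorem t_BASE2 (h1 : S_EN2) (h2 : S_CUT2) (h3 : S_WB) (_h4 : S_CT) : S_BASE2 := by
  obtain ⟨C₁, hC₁, hD⟩ := deriv_bound2 h1 h2 h3
  refine ⟨2 * C₁ + C₁ ^ 2, 1, by positivity, one_pos, ?_⟩
  intro ε hε hε1 v W G hyp t₁ ht₁
  have hyp' := hyp
  obtain ⟨-, -, hsl, hGi, hGe⟩ := hyp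
  have hG0 : ∀ t ∈ Ioo (-1 : ℝ) 0, 0 ≤ G t := fun t ht => by
    obtain ⟨P, hP⟩ := hsl t ht
    exact G_nonneg2 hP
  have hsub : Icc (-7 / 8 : ℝ) t₁ ⊆ Ioo (-1) 0 := by
    intro t ht
    exact ⟨by linarith [ht.1], by linarith [ht.2, ht₁.2]⟩
  have hcont : ContinuousOn (W605.MD.EE W) (Icc (-7 / 8 : ℝ) t₁) := by
    intro t ht
    obtain ⟨D, hD1, _⟩ := hD v W G ε hyp' t (hsub ht)
    exact hD1.continuousAt.continuousWithinAt
  have hne : (Icc (-7 / 8 : ℝ) t₁).Nonempty := ⟨t₁, by linarith [ht₁.1], le_rfl⟩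
  obtain ⟨ts, hts, hmax⟩ := isCompact_Icc.exists_isMaxOn hne hcont
  have hmax' : ∀ t ∈ Icc (-7 / 8 : ℝ) t₁, W605.MD.EE W t ≤ W605.MD.EE W ts := fun t ht => hmax ht
  have hS0 := W605.MD.EE_nonneg W ts
  have h0 : W605.MD.EE W (-7 / 8) = 0 := by
    rw [W605.MD.EE_eq, W605.MD.chi_zero (by norm_num)]; ring
  have hsub2 : Icc (-7 / 8 : ℝ) ts ⊆ Icc (-7 / 8 : ℝ) t₁ := Icc_subset_Icc_right hts.2
  have hGi2 : IntegrableOn G (Icc (-7 / 8 : ℝ) ts) := hGi.mono_set (hsub2.trans hsub)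
  have hkey : W605.MD.EE W ts - W605.MD.EE W (-7 / 8) ≤
      ∫ y in (-7 / 8)..ts, C₁ * (1 + √(W605.MD.EE W ts)) * G y := by
    choose! D hD1 hD2 using hD v W G ε hyp'
    apply intervalIntegral.sub_le_integral_of_hasDeriv_right_of_le (g' := D) hts.1
      (hcont.mono hsub2)
    · intro x hx
      exact (hD1 x (hsub (hsub2 (Ioo_subset_Icc_self hx)))).hasDerivWithinAt
    · exact hGi2.const_mul _
    · intro x hx
      have hx' := hsub2 (Ioo_subset_Icc_self hx)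
      refine (hD2 x (hsub hx')).trans ?_
      have e1 : √(W605.MD.EE W x) ≤ √(W605.MD.EE W ts) := Real.sqrt_le_sqrt (hmax' x hx')
      have e2 := hG0 x (hsub hx')
      calc C₁ * G x * (1 + √(W605.MD.EE W x)) ≤ C₁ * G x * (1 + √(W605.MD.EE W ts)) :=
            mul_le_mul_of_nonneg_left (by linarith) (by positivity)
        _ = _ := by ring
  have hint : ∫ y in (-7 / 8)..ts, G y ≤ ε := by
    rw [intervalIntegral.integral_of_le hts.1]
    refine le_trans ?_ hGe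
    apply setIntegral_mono_set hGi
    · exact (ae_restrict_iff' measurableSet_Ioo).2 (Filter.Eventually.of_forall hG0)
    · exact (Ioc_subset_Icc_self.trans (hsub2.trans hsub)).eventuallyLE
  rw [intervalIntegral.integral_const_mul, h0, sub_zero] at hkey
  have hS : W605.MD.EE W ts ≤ (2 * C₁ + C₁ ^ 2) * ε := by
    obtain ⟨r, hr, hrS⟩ : ∃ r : ℝ, 0 ≤ r ∧ W605.MD.EE W ts = r ^ 2 :=
      ⟨√(W605.MD.EE W ts), Real.sqrt_nonneg _, (Real.sq_sqrt hS0).symm⟩
    rw [hrS, Real.sqrt_sq hr] at hkey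
    rw [hrS]
    have e1 : C₁ * (1 + r) * ∫ y in (-7 / 8)..ts, G y ≤ C₁ * (1 + r) * ε :=
      mul_le_mul_of_nonneg_left hint (by positivity)
    have e2 : r ^ 2 ≤ C₁ * (1 + r) * ε := hkey.trans e1
    have e3 : (C₁ * ε - r) ^ 2 ≥ 0 := sq_nonneg _
    have e4 : C₁ ^ 2 * ε ^ 2 ≤ C₁ ^ 2 * ε := by
      apply mul_le_mul_of_nonneg_left _ (by positivity)
      nlinarith
    nlinarith
  refine le_trans ?_ ((hmax' t₁ ⟨by linarith [ht₁.1], le_rfl⟩).trans hS)
  have hsm : ContDiff ℝ ∞ (W t₁) := by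
    obtain ⟨P, hP⟩ := hsl t₁ ⟨by linarith [ht₁.1], ht₁.2⟩
    exact hP.sW
  have hk : W605.MD.EE W t₁ = ∫ z, nsq (W t₁) z * W605.MD.k2 z := by
    rw [W605.MD.EE_eq, W605.MD.chi_one ht₁.1.le]
    simp [W605.MD.k2]
  rw [hk]
  have hcs : HasCompactSupport W605.MD.k2 :=
    HasCompactSupport.of_support_subset_isCompact (isCompact_closedBall (0 : V) 1)
      ((subset_tsupport _).trans W605.MD.k2_tsupport)
  have hint2 : Integrable (fun z => nsq (W t₁) z * W605.MD.k2 z) :=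
    ((W605.MD.nsq_cont hsm).mul W605.MD.k2_cont).integrable_of_hasCompactSupport hcs.mul_left
  have e1 : A2 0 (3 / 4) (W t₁) = ∫ z in ball (0 : V) (3 / 4), nsq (W t₁) z * W605.MD.k2 z := by
    unfold A2
    apply setIntegral_congr_fun measurableSet_ball
    intro z hz
    simp only
    rw [W605.MD.k2_one hz, mul_one]
  rw [e1]
  exact setIntegral_le_integral hint2
    (Filter.Eventually.of_forall fun z => mul_nonneg (W605.MD.nsq_nonneg _ z) (W605.MD.k2_nonneg z))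

end W356.ME
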