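import Pool.Agent.W221.NS.Stm2
import Pool.Agent.W162.MD.CUT

/-!
The flux through the unit cut-off at one time (two fields).
-/

set_option linter.all false

open MeasureTheory Set Metric
open scoped ContDiff

namespace W356.ME

open H459R3.NS W221.NS W162.MD

theorem E_eq {v : V → V} : ∫ z, nsq v z * kap z ^ 2
      = ∫ z in ball (0 : V) 1, (kap z * √(nsq v z)) ^ 2 := by
  rw [← setIntegral_eq_integral_of_forall_compl_eq_zero (s := ball (0 : V) 1) fun z hz => ?_]
  · refine integral_congr_ae (Filter.Eventually.of_forall fun z => ?_)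
    simp only [mul_pow, Real.sq_sqrt (W162.MD.nsq_nonneg v z)]
    ring
  · rw [kap_zero hz]; simp

/-- The cubic term. -/
theorem cub_le {C₀ : ℝ} (h0 : 0 ≤ C₀) (hC : ∀ j z, |pd j (fun y : V => kap y) z| ≤ C₀)
    {v W : V → V} (hv : ContDiff ℝ ∞ v) (hW : ContDiff ℝ ∞ W) :
    |∫ z, nsq W z * adv v (fun y => kap y ^ 2) z| ≤
      6 * C₀ * (√(√(L4 0 1 W) * √(L4 0 1 v)) * √(∫ z, nsq W z * kap z ^ 2)) := by
  have hk : Continuous fun z : V => kap z := kap.continuous
  have hs : Continuous fun z : V => kap z * √(nsq W z) := hk.mul (cont_nsq hW).sqrt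
  have hr : Continuous fun z : V => √(nsq W z) * √(nsq v z) :=
    (cont_nsq hW).sqrt.mul (cont_nsq hv).sqrt
  have e1 : ∫ z, nsq W z * adv v (fun y => kap y ^ 2) z
      = ∫ z in ball (0 : V) 1, nsq W z * adv v (fun y => kap y ^ 2) z := by
    refine (setIntegral_eq_integral_of_forall_compl_eq_zero fun z hz => ?_).symm
    rw [adv_kap_zero v hz, mul_zero]
  rw [e1, E_eq]
  calc |∫ z in ball (0 : V) 1, nsq W z * adv v (fun y => kap y ^ 2) z|
      ≤ ∫ z in ball (0 : V) 1, |nsq W z * adv v (fun y => kap y ^ 2) z| :=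
        abs_integral_le_integral_abs
    _ ≤ ∫ z in ball (0 : V) 1, 6 * C₀ * ((√(nsq W z) * √(nsq v z)) * (kap z * √(nsq W z))) := by
        apply integral_mono
        · exact int_ball (((cont_nsq hW).mul (cont_adv_kap hv)).abs) 0 1
        · exact int_ball (continuous_const.mul (hr.mul hs)) 0 1
        · intro z
          have hn := W162.MD.nsq_nonneg W z
          have h1 := mul_le_mul_of_nonneg_left (adv_kap_le hC v z) hn
          have h2 : √(nsq W z) * √(nsq W z) = nsq W z := Real.mul_self_sqrt hn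
          simp only [abs_mul, abs_of_nonneg hn]
          calc nsq W z * |adv v (fun y => kap y ^ 2) z|
              ≤ nsq W z * (6 * C₀ * (kap z * √(nsq v z))) := h1
            _ = 6 * C₀ * (((√(nsq W z) * √(nsq W z)) * √(nsq v z)) * kap z) := by
                rw [h2]; ring
            _ = _ := by ring
    _ = 6 * C₀ * ∫ z in ball (0 : V) 1, (√(nsq W z) * √(nsq v z)) * (kap z * √(nsq W z)) := by
        rw [integral_const_mul]
    _ ≤ 6 * C₀ * (√(√(L4 0 1 W) * √(L4 0 1 v))
          * √(∫ z in ball (0 : V) 1, (kap z * √(nsq W z)) ^ 2)) := by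
        apply mul_le_mul_of_nonneg_left _ (by positivity)
        refine (le_abs_self _).trans ((cs_ball hr hs 0 1).trans ?_)
        refine mul_le_mul_of_nonneg_right ?_ (Real.sqrt_nonneg _)
        apply Real.sqrt_le_sqrt
        have e : ∀ z, (√(nsq W z) * √(nsq v z)) ^ 2 = nsq W z * nsq v z := by
          intro z
          rw [mul_pow, Real.sq_sqrt (W162.MD.nsq_nonneg W z), Real.sq_sqrt (W162.MD.nsq_nonneg v z)]
        simp_rw [e]
        exact (le_abs_self _).trans (cs_ball (cont_nsq hW) (cont_nsq hv) 0 1)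

theorem t_CUT2 (h : S_WB) : S_CUT2 := by
  obtain ⟨CW, hCW, hWB⟩ := h
  obtain ⟨C₀, hC₀, hC⟩ := exists_bound
  refine ⟨6 * C₀ * CW + 6 * C₀, by positivity, ?_⟩
  intro v W N P G hS
  have hv := hS.sv
  have hW := hS.sW
  have hPs := hS.sP
  obtain ⟨-, -, h3, h4⟩ := hWB v W N P G hS
  have hG : 0 ≤ G := by
    refine le_trans ?_ hS.grad
    unfold B2
    refine integral_nonneg fun z => ?_
    exact Finset.sum_nonneg fun _ _ => Finset.sum_nonneg fun _ _ => sq_nonneg _
  have ta := cub_le hC₀.le hC hv hW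
  have tP := flux_le hC₀.le hC hW hPs.continuous
  obtain ⟨E, hE⟩ : ∃ E, E = ∫ z, nsq W z * kap z ^ 2 := ⟨_, rfl⟩
  rw [← hE] at ta tP ⊢
  have hsE : 0 ≤ √E := Real.sqrt_nonneg _
  have hP2 : √(∫ z in ball (0 : V) 1, P z ^ 2) ≤ G := by
    rw [Real.sqrt_le_left hG]
    exact hS.nP
  have hL : √(√(L4 0 1 W) * √(L4 0 1 v)) ≤ CW * G := by
    rw [Real.sqrt_le_left (by positivity)]
    calc √(L4 0 1 W) * √(L4 0 1 v) ≤ (CW * G) * (CW * G) :=
          mul_le_mul h3 h4 (Real.sqrt_nonneg _) (by positivity)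
      _ = _ := by ring
  have ta' : |∫ z, nsq W z * adv v (fun y => kap y ^ 2) z| ≤ 6 * C₀ * (CW * G * √E) := by
    refine ta.trans ?_
    apply mul_le_mul_of_nonneg_left _ (by positivity)
    exact mul_le_mul_of_nonneg_right hL hsE
  have tP' : |∫ z, P z * adv W (fun y => kap y ^ 2) z| ≤ 6 * C₀ * (G * √E) := by
    refine tP.trans ?_
    apply mul_le_mul_of_nonneg_left _ (by positivity)
    exact mul_le_mul_of_nonneg_right hP2 hsE
  calc |∫ z, nsq W z * adv v (fun y => kap y ^ 2) z| + |∫ z, P z * adv W (fun y => kap y ^ 2) z|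
      ≤ 6 * C₀ * (CW * G * √E) + 6 * C₀ * (G * √E) := add_le_add ta' tP'
    _ = (6 * C₀ * CW + 6 * C₀) * G * √E := by ring

end W356.ME
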