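import Pool.Agent.W221.NS.Stm2
import Pool.Agent.W918.MD.TF

/-!
The test functions with the additional decay.
-/

set_option autoImplicit false
set_option linter.all false

open MeasureTheory Set Metric
open scoped ContDiff

namespace W356.ME

open H459R3.NS W221.NS W918.MD

noncomputable section

theorem exp_four (y : ℝ) : y ^ 4 * Real.exp (-y ^ 2) ≤ 2 := by
  have h3 : (y ^ 2) ^ 2 / 2 ≤ Real.exp (y ^ 2) := by
    have := Real.pow_div_factorial_le_exp (y ^ 2) (by positivity) 2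
    simpa [Nat.factorial] using this
  have he : Real.exp (-y ^ 2) = (Real.exp (y ^ 2))⁻¹ := Real.exp_neg _
  have hp := Real.exp_pos (y ^ 2)
  rw [he, ← div_eq_mul_inv, div_le_iff₀ hp]
  nlinarith

theorem b4 (w Y L : ℝ) (hw : 0 < w) (hY : 0 ≤ Y) (hL : 0 < L) (h : L ≤ w ∨ L ≤ Y) :
    (w ^ 3)⁻¹ * Real.exp (-(Y ^ 2) / (4 * w ^ 2)) ≤ 32 * w * (L ^ 4)⁻¹ := by
  have hle1 : Real.exp (-(Y ^ 2) / (4 * w ^ 2)) ≤ 1 := by
    rw [Real.exp_le_one_iff]
    rw [neg_div, neg_nonpos]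
    positivity
  rcases h with h | h
  · have h1 : (w ^ 4)⁻¹ ≤ (L ^ 4)⁻¹ := inv_anti₀ (by positivity) (pow_le_pow_left₀ hL.le h 4)
    have h2 : 0 < (w ^ 3)⁻¹ := by positivity
    have h3 : (w ^ 3)⁻¹ = w * (w ^ 4)⁻¹ := by field_simp
    calc (w ^ 3)⁻¹ * Real.exp (-(Y ^ 2) / (4 * w ^ 2)) ≤ (w ^ 3)⁻¹ * 1 :=
          mul_le_mul_of_nonneg_left hle1 h2.le
      _ = w * (w ^ 4)⁻¹ := by rw [mul_one, h3]
      _ ≤ w * (L ^ 4)⁻¹ := mul_le_mul_of_nonneg_left h1 hw.le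
      _ ≤ 32 * w * (L ^ 4)⁻¹ := by
          have : 0 < w * (L ^ 4)⁻¹ := by positivity
          linarith
  · have hY0 : 0 < Y := by linarith
    have h3 := exp_four (Y / (2 * w))
    have e1 : -(Y ^ 2) / (4 * w ^ 2) = -(Y / (2 * w)) ^ 2 := by
      field_simp
      ring
    have e2 : (w ^ 3)⁻¹ = 16 * (Y / (2 * w)) ^ 4 * w * (Y ^ 4)⁻¹ := by
      field_simp
      ring
    rw [e1, e2]
    have h1 : (Y ^ 4)⁻¹ ≤ (L ^ 4)⁻¹ := inv_anti₀ (by positivity) (pow_le_pow_left₀ hL.le h 4)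
    have h2 : 0 < (Y ^ 4)⁻¹ := by positivity
    calc 16 * (Y / (2 * w)) ^ 4 * w * (Y ^ 4)⁻¹ * Real.exp (-(Y / (2 * w)) ^ 2)
        = 16 * ((Y / (2 * w)) ^ 4 * Real.exp (-(Y / (2 * w)) ^ 2)) * w * (Y ^ 4)⁻¹ := by ring
      _ ≤ 16 * 2 * w * (L ^ 4)⁻¹ := by gcongr
      _ = 32 * w * (L ^ 4)⁻¹ := by ring

theorem psi_le4 (N : ℝ) (hN : 0 < N) (x : V) (L : ℝ) (hL : 0 < L) (h : L ^ 2 ≤ N ∨ L ≤ ‖x‖) :
    psi N x ≤ 32 * √N * (L ^ 4)⁻¹ := by
  have hw : 0 < √N := Real.sqrt_pos.2 hN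
  have h1 := b4 (√N) (√(qq x)) L hw (Real.sqrt_nonneg _) hL (by
    rcases h with h | h
    · exact Or.inl (Real.le_sqrt_of_sq_le h)
    · exact Or.inr (h.trans (norm_le_sqrt_qq x)))
  rw [Real.sq_sqrt (qq_nonneg x), Real.sq_sqrt hN.le] at h1
  exact h1

theorem f_size2 (a : V) (s : ℝ) (n k : ℕ) (hk : k ≤ n) (t : ℝ) (ht : t ≤ s) (z : V) :
    |phi a s n k t z| ≤ 8192 * 8 ^ k * (2 ^ k * √(rr n ^ 2 + (s - t))) := by
  have hNe : rr n ^ 2 + (s - t) = rr n ^ 2 + s - t := by ring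
  rw [hNe]
  by_cases h : rr (k + 2) ^ 2 ≤ rr n ^ 2 + s - t ∨ rr (k + 2) ≤ ‖z - a‖
  · have h1 : ker a s n t z ≤ 32 * √(rr n ^ 2 + s - t) * (rr (k + 2) ^ 4)⁻¹ :=
      psi_le4 _ (hNpos s n t ht) (z - a) _ (rr_pos _) h
    rw [rr_inv4] at h1
    unfold phi
    rw [abs_mul, abs_of_nonneg (ker_nonneg a s n t z)]
    calc ker a s n t z * |dd a s n k t z| ≤ (32 * √(rr n ^ 2 + s - t) * 16 ^ (k + 2)) * 1 :=
          mul_le_mul h1 (abs_dd_le a s n k t z) (abs_nonneg _) (by positivity)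
      _ = 8192 * 8 ^ k * (2 ^ k * √(rr n ^ 2 + s - t)) := by
          rw [show (16 : ℝ) = 8 * 2 by norm_num, mul_pow, pow_add, pow_add]
          ring
  · have h1 := (dd_ev a s n k hk t ht z h).self_of_nhds
    unfold phi
    rw [h1, mul_zero, abs_zero]
    positivity

theorem t_TF2 : S_TF2 := by
  obtain ⟨C, hC1, hchi, hb⟩ := all_bdd
  refine ⟨10 ^ 7 * C, 1 / 16, by linarith, by norm_num, fun a s n hn => ⟨phi a s n, ?_⟩⟩
  have s2 : ∀ t z, ∑ k ∈ Finset.Icc 2 n, phi a s n k t z = ker a s n t z * eta a s 2 t z :=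
    fun t z => sum_phi a s n 2 (by omega) t z
  have s5 : ∀ t z, ∑ k ∈ Finset.Icc 5 n, phi a s n k t z = ker a s n t z * eta a s 5 t z :=
    fun t z => sum_phi a s n 5 hn t z
  refine
    { smooth := fun k => phi_smooth a s n k
      supp := ?_
      suppt := ?_
      size := ?_
      grad := ?_
      pos := ?_
      out := ?_
      heat := ?_
      low := ?_
      int := ?_
      size2 := ?_ }
  · intro k _ t z hz
    rw [mem_ball, dist_eq_norm, not_lt] at hz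
    have h1 : rr (k + 1) ≤ rr k := rr_anti (by omega)
    unfold phi dd
    rw [eta_zero a s k t z hz, eta_zero a s (k + 1) t z (by linarith)]
    simp
  · intro k _ t ht z
    have h1 : rr (k + 1) ≤ rr k := rr_anti (by omega)
    have h2 := rr_pos (k + 1)
    have h3 : rr (k + 1) ^ 2 ≤ rr k ^ 2 := pow_le_pow_left₀ h2.le h1 2
    unfold phi dd
    rw [eta_zero_t a s k t z (by linarith), eta_zero_t a s (k + 1) t z (by linarith)]
    simp
  · intro k hk t ht z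
    rw [Finset.mem_Icc] at hk
    refine (f_size a s n k hk.2 t ht z).trans ?_
    have : (0 : ℝ) < 8 ^ k := by positivity
    nlinarith
  · intro k hk t ht z i
    rw [Finset.mem_Icc] at hk
    refine (f_grad a s n k hk.2 t ht z i C hC1 hb).trans ?_
    have : (0 : ℝ) < 16 ^ k := by positivity
    have h2 : 0 ≤ C * 16 ^ k := by positivity
    nlinarith
  · intro t ht z
    rw [s2]
    exact mul_nonneg (ker_nonneg _ _ _ _ _) (eta_nonneg _ _ _ _ _)
  · intro t ht z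
    rw [s2, s5, abs_of_nonneg (mul_nonneg (ker_nonneg _ _ _ _ _) (eta_nonneg _ _ _ _ _))]
    exact mul_le_mul_of_nonneg_left (eta_le a s t z) (ker_nonneg _ _ _ _ _)
  · intro t ht z
    simp only [s2]
    exact f_heat a s n t ht z C hC1 hchi hb
  · intro t h1 h2 z hz
    rw [s2]
    exact f_low a s n hn t h1 h2 z hz
  · intro t ht
    simp only [s2]
    refine (f_int a s n t ht).trans ?_
    linarith
  · intro k hk t ht z
    rw [Finset.mem_Icc] at hk
    refine (f_size2 a s n k hk.2 t ht z).trans ?_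
    have h8 : (0 : ℝ) < 8 ^ k := by positivity
    refine mul_le_mul_of_nonneg_right ?_ (by positivity)
    nlinarith

end

end W356.ME
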